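import Mathlib

/-!
The three-quarter part of a 3-sphere is a 3-cell: explicit coordinates.
-/

namespace Pool.Agent.P.MP_4194ae_gt

/-- The piecewise linear function `max x (x / 3)`. -/
noncomputable def kk (x : ℝ) : ℝ := max x (x / 3)

/-- The cone of pairs one of whose real parts is not positive. -/
def cone : Set (ℂ × ℂ) := {q | q.1.re ≤ 0 ∨ q.2.re ≤ 0}

/-- The flattening map to Euclidean 3-space. -/
noncomputable def flat (q : ℂ × ℂ) : EuclideanSpace ℝ (Fin 3) :=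
  !₂[q.1.im, q.2.im, kk q.1.re - kk q.2.re]

/-- A norm on pairs adapted to `flat`. -/
noncomputable def nn (q : ℂ × ℂ) : ℝ :=
  Real.sqrt (q.1.im ^ 2 + q.2.im ^ 2 + (|q.1.re| + |q.2.re|) ^ 2)

lemma kk_of_nonneg {x : ℝ} (h : 0 ≤ x) : kk x = x := by
  unfold kk; exact max_eq_left (by linarith)

lemma kk_of_nonpos {x : ℝ} (h : x ≤ 0) : kk x = x / 3 := by
  unfold kk; exact max_eq_right (by linarith)

lemma kk_mul {t : ℝ} (ht : 0 ≤ t) (x : ℝ) : kk (t * x) = t * kk x := by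
  unfold kk
  rw [mul_max_of_nonneg _ _ ht, mul_div_assoc]

lemma abs_kk_le (x : ℝ) : |kk x| ≤ |x| := by
  rcases le_total 0 x with h | h
  · rw [kk_of_nonneg h]
  · rw [kk_of_nonpos h, abs_of_nonpos h, abs_of_nonpos (by linarith)]; linarith

lemma continuous_kk : Continuous kk := by unfold kk; fun_prop

lemma continuous_flat : Continuous flat := by
  unfold flat
  have := continuous_kk
  fun_prop

lemma continuous_nn : Continuous nn := by unfold nn; fun_prop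

lemma norm_flat_sq (q : ℂ × ℂ) :
    ‖flat q‖ ^ 2 = q.1.im ^ 2 + q.2.im ^ 2 + (kk q.1.re - kk q.2.re) ^ 2 := by
  rw [EuclideanSpace.norm_sq_eq]
  simp [flat, Fin.sum_univ_three]

lemma nn_nonneg (q : ℂ × ℂ) : 0 ≤ nn q := Real.sqrt_nonneg _

lemma nn_sq (q : ℂ × ℂ) : nn q ^ 2 = q.1.im ^ 2 + q.2.im ^ 2 + (|q.1.re| + |q.2.re|) ^ 2 :=
  Real.sq_sqrt (by positivity)

lemma norm_flat_le (q : ℂ × ℂ) : ‖flat q‖ ≤ nn q := by
  rw [← sq_le_sq₀ (norm_nonneg _) (nn_nonneg q), norm_flat_sq, nn_sq]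
  have h1 : |kk q.1.re - kk q.2.re| ≤ |q.1.re| + |q.2.re| :=
    (abs_sub _ _).trans (add_le_add (abs_kk_le _) (abs_kk_le _))
  have h2 := pow_le_pow_left₀ (abs_nonneg _) h1 2
  rw [sq_abs] at h2
  linarith

lemma nn_pos {q : ℂ × ℂ} (hq : q ≠ 0) : 0 < nn q := by
  refine lt_of_le_of_ne (nn_nonneg q) fun h => hq ?_
  have h1 := nn_sq q
  rw [← h] at h1
  have h2 := abs_nonneg q.1.re
  have h3 := abs_nonneg q.2.re
  have h4 : q.1.im = 0 := by nlinarith [sq_nonneg q.1.im, sq_nonneg q.2.im, sq_nonneg (|q.1.re| + |q.2.re|)]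
  have h5 : q.2.im = 0 := by nlinarith [sq_nonneg q.1.im, sq_nonneg q.2.im, sq_nonneg (|q.1.re| + |q.2.re|)]
  have h6 : |q.1.re| + |q.2.re| = 0 := by
    nlinarith [sq_nonneg q.1.im, sq_nonneg q.2.im, sq_nonneg (|q.1.re| + |q.2.re|)]
  have h7 : q.1.re = 0 := abs_eq_zero.1 (by linarith)
  have h8 : q.2.re = 0 := abs_eq_zero.1 (by linarith)
  exact Prod.ext (Complex.ext h7 h4) (Complex.ext h8 h5)

lemma nn_smul {t : ℝ} (ht : 0 ≤ t) (q : ℂ × ℂ) : nn (t • q) = t * nn q := by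
  rw [← sq_eq_sq₀ (nn_nonneg _) (mul_nonneg ht (nn_nonneg q)), mul_pow, nn_sq, nn_sq]
  simp only [Prod.smul_fst, Prod.smul_snd, Complex.smul_im, Complex.smul_re, smul_eq_mul, abs_mul,
    abs_of_nonneg ht]
  ring

lemma flat_smul {t : ℝ} (ht : 0 ≤ t) (q : ℂ × ℂ) : flat (t • q) = t • flat q := by
  ext i
  fin_cases i
  · simp [flat]
  · simp [flat]
  · simp [flat, kk_mul ht, mul_sub]

lemma smul_mem_cone {t : ℝ} (ht : 0 ≤ t) {q : ℂ × ℂ} (hq : q ∈ cone) : t • q ∈ cone := by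
  rcases hq with h | h
  · left; simpa using mul_nonpos_of_nonneg_of_nonpos ht h
  · right; simpa using mul_nonpos_of_nonneg_of_nonpos ht h

lemma kk_inj {x y x' y' : ℝ} (h : x ≤ 0 ∨ y ≤ 0) (h' : x' ≤ 0 ∨ y' ≤ 0)
    (h1 : |x| + |y| = |x'| + |y'|) (h2 : kk x - kk y = kk x' - kk y') : x = x' ∧ y = y' := by
  rcases le_total 0 x with hx | hx <;> rcases le_total 0 y with hy | hy <;>
  rcases le_total 0 x' with hx' | hx' <;> rcases le_total 0 y' with hy' | hy' <;>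
  simp only [kk_of_nonneg, kk_of_nonpos, abs_of_nonneg, abs_of_nonpos, hx, hy, hx', hy'] at h1 h2 <;>
  rcases h with h | h <;> rcases h' with h' | h' <;> constructor <;> linarith

lemma flat_inj {q q' : ℂ × ℂ} (hq : q ∈ cone) (hq' : q' ∈ cone) (hn : nn q = nn q')
    (h : flat q = flat q') : q = q' := by
  have h0 : q.1.im = q'.1.im := by simpa [flat] using congrArg (fun v => v 0) h
  have h1 : q.2.im = q'.2.im := by simpa [flat] using congrArg (fun v => v 1) h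
  have h2 : kk q.1.re - kk q.2.re = kk q'.1.re - kk q'.2.re := by
    simpa [flat] using congrArg (fun v => v 2) h
  have h3 : |q.1.re| + |q.2.re| = |q'.1.re| + |q'.2.re| := by
    rw [← sq_eq_sq₀ (by positivity) (by positivity)]
    have a := nn_sq q
    have b := nn_sq q'
    rw [hn, h0, h1] at a
    linarith
  obtain ⟨h4, h5⟩ := kk_inj hq hq' h3 h2
  exact Prod.ext (Complex.ext h4 h0) (Complex.ext h5 h1)

lemma kk_surj {ρ h : ℝ} (hh : |h| ≤ ρ) :
    ∃ x y : ℝ, (x ≤ 0 ∨ y ≤ 0) ∧ |x| + |y| = ρ ∧ kk x - kk y = h := by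
  obtain ⟨h1, h2⟩ := abs_le.1 hh
  rcases le_total (ρ / 3) h with a | a
  · refine ⟨(3 * h - ρ) / 2, 3 * (h - ρ) / 2, Or.inr (by linarith), ?_, ?_⟩
    · rw [abs_of_nonneg (by linarith), abs_of_nonpos (by linarith)]; ring
    · rw [kk_of_nonneg (by linarith), kk_of_nonpos (by linarith)]; ring
  rcases le_total h (-ρ / 3) with b | b
  · refine ⟨3 * (-h - ρ) / 2, (-3 * h - ρ) / 2, Or.inl (by linarith), ?_, ?_⟩
    · rw [abs_of_nonpos (by linarith), abs_of_nonneg (by linarith)]; ring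
    · rw [kk_of_nonpos (by linarith), kk_of_nonneg (by linarith)]; ring
  · refine ⟨(3 * h - ρ) / 2, (-3 * h - ρ) / 2, Or.inl (by linarith), ?_, ?_⟩
    · rw [abs_of_nonpos (by linarith), abs_of_nonpos (by linarith)]; ring
    · rw [kk_of_nonpos (by linarith), kk_of_nonpos (by linarith)]; ring

lemma flat_surj {u : EuclideanSpace ℝ (Fin 3)} (hu : ‖u‖ ≤ 1) :
    ∃ q ∈ cone, nn q = 1 ∧ flat q = u := by
  have h1 : u 0 ^ 2 + u 1 ^ 2 + u 2 ^ 2 ≤ 1 := by
    have := EuclideanSpace.norm_sq_eq u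
    simp only [Fin.sum_univ_three, Real.norm_eq_abs, sq_abs] at this
    rw [← this]
    exact pow_le_one₀ (norm_nonneg _) hu
  have h2 : 0 ≤ 1 - u 0 ^ 2 - u 1 ^ 2 := by nlinarith [sq_nonneg (u 2)]
  have h3 : |u 2| ≤ Real.sqrt (1 - u 0 ^ 2 - u 1 ^ 2) := Real.abs_le_sqrt (by linarith)
  obtain ⟨x, y, hxy, h4, h5⟩ := kk_surj h3
  refine ⟨(⟨x, u 0⟩, ⟨y, u 1⟩), hxy, ?_, ?_⟩
  · rw [← sq_eq_sq₀ (nn_nonneg _) zero_le_one, nn_sq]
    simp only [h4, Real.sq_sqrt h2]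
    ring
  · ext i
    fin_cases i
    · simp [flat]
    · simp [flat]
    · simp [flat, h5]

/-- Radial projection of the cone onto the closed unit ball. -/
noncomputable def proj (q : ℂ × ℂ) : EuclideanSpace ℝ (Fin 3) := (nn q)⁻¹ • flat q

lemma norm_proj_le (q : ℂ × ℂ) : ‖proj q‖ ≤ 1 := by
  unfold proj
  rw [norm_smul, norm_inv, Real.norm_eq_abs, abs_of_nonneg (nn_nonneg q)]
  exact inv_mul_le_one_of_le₀ (norm_flat_le q) (nn_nonneg q)

/-- Description of the fibres of `proj` on the punctured cone. -/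
lemma proj_eq_iff {q q' : ℂ × ℂ} (hq : q ∈ cone) (hq' : q' ∈ cone) (hn : nn q = 1) (h0 : q' ≠ 0) :
    proj q' = flat q ↔ ∃ t : ℝ, 0 < t ∧ q' = t • q := by
  have hp := nn_pos h0
  constructor
  · intro h
    refine ⟨nn q', hp, ?_⟩
    have h1 : (nn q')⁻¹ • q' = q := by
      refine flat_inj (smul_mem_cone (by positivity) hq') hq ?_ ?_
      · rw [nn_smul (by positivity), hn, inv_mul_cancel₀ hp.ne']
      · rw [flat_smul (by positivity)]; exact h
    rw [← h1, smul_smul, mul_inv_cancel₀ hp.ne', one_smul]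
  · rintro ⟨t, ht, rfl⟩
    unfold proj
    rw [nn_smul ht.le, flat_smul ht.le, hn, smul_smul, mul_one, inv_mul_cancel₀ ht.ne', one_smul]

end Pool.Agent.P.MP_4194ae_gt
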