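import Mathlib
import Pool.Agent.P.MP_4194ae_gt.Ball

/-!
A 3-sphere with a spiralling flow tube removed, its fixed point free self map and the
untwisting maps.
-/

namespace Pool.Agent.P.MP_4194ae_gt

open Complex

/-- The unit complex number of argument `t`. -/
noncomputable def ee (t : ℝ) : ℂ := Complex.exp (t * Complex.I)

lemma norm_ee (t : ℝ) : ‖ee t‖ = 1 := Complex.norm_exp_ofReal_mul_I t

lemma ee_add (s t : ℝ) : ee (s + t) = ee s * ee t := by
  unfold ee; rw [← Complex.exp_add]; congr 1; push_cast; ring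

lemma ee_zero : ee 0 = 1 := by simp [ee]

lemma ee_neg_mul (s : ℝ) : ee (-s) * ee s = 1 := by rw [← ee_add]; simp [ee_zero]

lemma ee_ne_zero (s : ℝ) : ee s ≠ 0 := Complex.exp_ne_zero _

lemma ee_neg_pi : ee (-Real.pi) = -1 := by
  unfold ee
  rw [Complex.ofReal_neg, neg_mul, Complex.exp_neg, Complex.exp_pi_mul_I]
  norm_num

lemma continuous_ee : Continuous ee := by unfold ee; fun_prop

/-- The logarithmic ratio of the moduli. -/
noncomputable def ss (p : ℂ × ℂ) : ℝ := Real.log ‖p.2‖ - Real.log ‖p.1‖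

/-- The continuum. -/
def MM : Set (ℂ × ℂ) :=
  {p | ‖p‖ = 1 ∧ ((p.1 * ee (-ss p)).re ≤ 0 ∨ (p.2 * ee (-ss p)).re ≤ 0)}

lemma isClosed_MM : IsClosed MM := by
  have h1 : IsClosed {p : ℂ × ℂ | ‖p‖ = 1} := isClosed_eq continuous_norm continuous_const
  have h2 : IsOpen {p : ℂ × ℂ | 0 < (p.1 * ee (-ss p)).re ∧ 0 < (p.2 * ee (-ss p)).re} := by
    rw [isOpen_iff_mem_nhds]
    rintro p ⟨ha, hb⟩
    have hz : p.1 ≠ 0 := by rintro h; simp [h] at ha
    have hw : p.2 ≠ 0 := by rintro h; simp [h] at hb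
    have hs : ContinuousAt ss p := by
      unfold ss
      have a1 : ContinuousAt (fun p : ℂ × ℂ => Real.log ‖p.2‖) p :=
        ContinuousAt.log (by fun_prop) (by simpa using hw)
      have a2 : ContinuousAt (fun p : ℂ × ℂ => Real.log ‖p.1‖) p :=
        ContinuousAt.log (by fun_prop) (by simpa using hz)
      exact a1.sub a2
    have he : ContinuousAt (fun p => ee (-ss p)) p := continuous_ee.continuousAt.comp hs.neg
    have c1 : ContinuousAt (fun p : ℂ × ℂ => (p.1 * ee (-ss p)).re) p :=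
      Complex.continuous_re.continuousAt.comp (continuousAt_fst.mul he)
    have c2 : ContinuousAt (fun p : ℂ × ℂ => (p.2 * ee (-ss p)).re) p :=
      Complex.continuous_re.continuousAt.comp (continuousAt_snd.mul he)
    exact (continuousAt_const.eventually_lt c1 ha).and (continuousAt_const.eventually_lt c2 hb)
  have : MM = {p : ℂ × ℂ | ‖p‖ = 1} ∩
      {p : ℂ × ℂ | 0 < (p.1 * ee (-ss p)).re ∧ 0 < (p.2 * ee (-ss p)).re}ᶜ := by
    ext p
    simp only [MM, Set.mem_ofPred_eq, Set.mem_inter_iff, Set.mem_compl_iff, not_and_or, not_lt]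
  rw [this]
  exact h1.inter h2.isClosed_compl

lemma isCompact_MM : IsCompact MM :=
  (isCompact_sphere (0 : ℂ × ℂ) 1).of_isClosed_subset isClosed_MM fun p hp => by
    simpa using hp.1

lemma ne_zero_of_mem {p : ℂ × ℂ} (hp : p ∈ MM) : p ≠ 0 := by
  rintro rfl
  simpa using hp.1

/-- The stretched pair. -/
noncomputable def str (p : ℂ × ℂ) : ℂ × ℂ := (p.1, Real.exp Real.pi • p.2)

lemma str_ne_zero {p : ℂ × ℂ} (hp : p ≠ 0) : str p ≠ 0 := by
  intro h
  apply hp
  have h1 : p.1 = 0 := congrArg Prod.fst h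
  have h2 : Real.exp Real.pi • p.2 = 0 := congrArg Prod.snd h
  exact Prod.ext h1 ((smul_eq_zero.1 h2).resolve_left (Real.exp_pos _).ne')

/-- The fixed point free map. -/
noncomputable def gg (p : ℂ × ℂ) : ℂ × ℂ := (-‖str p‖⁻¹) • str p

lemma gg_ne {p : ℂ × ℂ} (hp : p ≠ 0) : gg p ≠ p := by
  intro h
  apply hp
  have h0 : 0 < ‖str p‖⁻¹ := inv_pos.2 (norm_pos_iff.2 (str_ne_zero hp))
  have h1 : (-‖str p‖⁻¹) • p.1 = p.1 := congrArg Prod.fst h
  have h2 : (-‖str p‖⁻¹) • Real.exp Real.pi • p.2 = p.2 := congrArg Prod.snd h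
  have h3 : (1 + ‖str p‖⁻¹) • p.1 = 0 := by
    rw [add_smul, one_smul]; rw [neg_smul] at h1; linear_combination -h1
  have h4 : (1 + ‖str p‖⁻¹ * Real.exp Real.pi) • p.2 = 0 := by
    rw [add_smul, one_smul, mul_smul]; rw [neg_smul] at h2; linear_combination -h2
  have h5 := Real.exp_pos Real.pi
  exact Prod.ext ((smul_eq_zero.1 h3).resolve_left (by positivity))
    ((smul_eq_zero.1 h4).resolve_left (by positivity))

lemma gg_mem {p : ℂ × ℂ} (hp : p ∈ MM) : gg p ∈ MM := by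
  have hn : 0 < ‖str p‖ := norm_pos_iff.2 (str_ne_zero (ne_zero_of_mem hp))
  have h0 : 0 < ‖str p‖⁻¹ := inv_pos.2 hn
  have h5 := Real.exp_pos Real.pi
  refine ⟨?_, ?_⟩
  · unfold gg
    rw [norm_smul, norm_neg, norm_inv, norm_norm, inv_mul_cancel₀ hn.ne']
  have e1 : (gg p).1 = (-‖str p‖⁻¹) • p.1 := rfl
  have e2 : (gg p).2 = (-‖str p‖⁻¹) • Real.exp Real.pi • p.2 := rfl
  by_cases hz : p.1 = 0
  · left; simp [e1, hz]
  by_cases hw : p.2 = 0
  · right; simp [e2, hw]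
  have hs : ss (gg p) = ss p + Real.pi := by
    unfold ss
    have hz' : ‖p.1‖ ≠ 0 := by simpa using hz
    have hw' : ‖p.2‖ ≠ 0 := by simpa using hw
    rw [e1, e2, norm_smul, norm_smul, norm_smul, norm_neg, Real.norm_of_nonneg h0.le,
      Real.norm_of_nonneg h5.le, Real.log_mul h0.ne' (by positivity), Real.log_mul h0.ne' hz',
      Real.log_mul h5.ne' hw', Real.log_exp]
    ring
  have he : ee (-ss (gg p)) = -ee (-ss p) := by
    rw [hs, neg_add, ee_add, ee_neg_pi]; ring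
  rw [he, e1, e2]
  rcases hp.2 with h | h
  · left
    have : ((-‖str p‖⁻¹) • p.1 * -ee (-ss p)).re = ‖str p‖⁻¹ * (p.1 * ee (-ss p)).re := by
      rw [← Complex.re_ofReal_mul]; congr 1; simp; ring
    rw [this]
    exact mul_nonpos_of_nonneg_of_nonpos h0.le h
  · right
    have : ((-‖str p‖⁻¹) • Real.exp Real.pi • p.2 * -ee (-ss p)).re
        = (‖str p‖⁻¹ * Real.exp Real.pi) * (p.2 * ee (-ss p)).re := by
      rw [← Complex.re_ofReal_mul]; congr 1; simp; ring
    rw [this]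
    exact mul_nonpos_of_nonneg_of_nonpos (by positivity) h

lemma continuousOn_gg : ContinuousOn gg MM := by
  have h1 : Continuous str := by unfold str; fun_prop
  have h2 : ContinuousOn (fun p => ‖str p‖⁻¹) MM :=
    ContinuousOn.inv₀ h1.norm.continuousOn fun p hp =>
      (norm_pos_iff.2 (str_ne_zero (ne_zero_of_mem hp))).ne'
  exact h2.neg.smul h1.continuousOn

/-- A twisted half disc together with a family of circles is connected. -/
lemma isConnected_twisted (κ δ : ℝ) (hδ : 0 ≤ δ) (G : ℝ → Prop) :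
    IsConnected {z : ℂ | ‖z‖ ≤ δ ∧ ((z * ee (κ * Real.log ‖z‖)).re ≤ 0 ∨ G ‖z‖)} := by
  set D : Set ℂ := {z | ‖z‖ ≤ δ ∧ z.re ≤ 0} with hD
  have hDc : Convex ℝ D := by
    have : D = Metric.closedBall 0 δ ∩ {z : ℂ | z.re ≤ 0} := by
      ext z; simp [hD]
    rw [this]
    exact (convex_closedBall _ _).inter (convex_halfSpace_re_le 0)
  have h0 : (0 : ℂ) ∈ D := by simp [hD, hδ]
  set E : Set ℂ := {z | ‖z‖ ≤ δ ∧ (z.re ≤ 0 ∨ G ‖z‖)} with hE
  have hEc : IsPreconnected E := by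
    refine isPreconnected_of_forall (0 : ℂ) fun y hy => ?_
    rcases hy.2 with h | h
    · exact ⟨D, fun z hz => ⟨hz.1, Or.inl hz.2⟩, h0, ⟨hy.1, h⟩, hDc.isPreconnected⟩
    · refine ⟨D ∪ Metric.sphere 0 ‖y‖, ?_, Or.inl h0, Or.inr (by simp), ?_⟩
      · rintro z (hz | hz)
        · exact ⟨hz.1, Or.inl hz.2⟩
        · have : ‖z‖ = ‖y‖ := by simpa using hz
          exact ⟨this ▸ hy.1, Or.inr (this ▸ h)⟩
      · refine IsPreconnected.union (-(‖y‖ : ℂ)) ⟨by simpa using hy.1, by simp⟩ (by simp)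
          hDc.isPreconnected (isPreconnected_sphere ?_ _ _)
        rw [Complex.rank_real_complex]; norm_num
  have hT : Continuous fun z : ℂ => z * ee (-(κ * Real.log ‖z‖)) := by
    rw [continuous_iff_continuousAt]
    intro z
    by_cases hz : z = 0
    · subst hz
      rw [ContinuousAt, zero_mul, tendsto_zero_iff_norm_tendsto_zero]
      simp only [norm_mul, norm_ee, mul_one]
      simpa using (continuous_norm (E := ℂ)).tendsto 0
    · have a1 : ContinuousAt (fun z : ℂ => Real.log ‖z‖) z :=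
        ContinuousAt.log (by fun_prop) (by simpa using hz)
      exact continuousAt_id.mul (continuous_ee.continuousAt.comp (a1.const_mul κ).neg)
  have himg : (fun z : ℂ => z * ee (-(κ * Real.log ‖z‖))) '' E =
      {z : ℂ | ‖z‖ ≤ δ ∧ ((z * ee (κ * Real.log ‖z‖)).re ≤ 0 ∨ G ‖z‖)} := by
    ext z
    constructor
    · rintro ⟨y, hy, rfl⟩
      simp only [Set.mem_ofPred_eq, norm_mul, norm_ee, mul_one]
      rw [mul_assoc, ee_neg_mul, mul_one]
      exact hy
    · intro hz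
      refine ⟨z * ee (κ * Real.log ‖z‖), ?_, ?_⟩
      · simpa only [hE, Set.mem_ofPred_eq, norm_mul, norm_ee, mul_one] using hz
      · simp only [norm_mul, norm_ee, mul_one]
        rw [mul_assoc, mul_comm (ee _), ee_neg_mul, mul_one]
  rw [← himg]
  have hne : E.Nonempty := ⟨0, by simp [hE, hδ]⟩
  exact IsConnected.image ⟨hne, hEc⟩ _ hT.continuousOn

/-- Truncated modulus of the first coordinate. -/
noncomputable def aa (R : ℝ) (p : ℂ × ℂ) : ℝ := max ‖p.1‖ (‖p.2‖ / R)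

/-- Truncated modulus of the second coordinate. -/
noncomputable def bb (R : ℝ) (p : ℂ × ℂ) : ℝ := max ‖p.2‖ (‖p.1‖ / R)

/-- Truncated logarithmic ratio. -/
noncomputable def sig (R : ℝ) (p : ℂ × ℂ) : ℝ := Real.log (bb R p) - Real.log (aa R p)

/-- The untwisting and collapsing map. -/
noncomputable def FF (R : ℝ) (p : ℂ × ℂ) : ℂ × ℂ :=
  (((R * aa R p - ‖p.2‖) / aa R p) • (p.1 * ee (-sig R p)),
    ((R * bb R p - ‖p.1‖) / bb R p) • (p.2 * ee (-sig R p)))

lemma norm_cases {p : ℂ × ℂ} (hp : ‖p‖ = 1) :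
    ‖p.1‖ ≤ 1 ∧ ‖p.2‖ ≤ 1 ∧ (‖p.1‖ = 1 ∨ ‖p.2‖ = 1) := by
  rw [Prod.norm_def] at hp
  refine ⟨hp ▸ le_max_left _ _, hp ▸ le_max_right _ _, ?_⟩
  rcases max_choice ‖p.1‖ ‖p.2‖ with h | h
  · left; rw [← h, hp]
  · right; rw [← h, hp]

section
variable {R : ℝ} (hR : 1 < R)
include hR

lemma aa_pos {p : ℂ × ℂ} (hp : ‖p‖ = 1) : 0 < aa R p := by
  unfold aa
  rcases (norm_cases hp).2.2 with h | h
  · rw [h]; positivity
  · rw [h]; have : 0 < 1 / R := by positivity
    exact lt_max_of_lt_right this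

lemma bb_pos {p : ℂ × ℂ} (hp : ‖p‖ = 1) : 0 < bb R p := by
  unfold bb
  rcases (norm_cases hp).2.2 with h | h
  · rw [h]; have : 0 < 1 / R := by positivity
    exact lt_max_of_lt_right this
  · rw [h]; positivity

lemma continuousOn_FF : ContinuousOn (FF R) MM := by
  have ha : Continuous (aa R) := by unfold aa; fun_prop
  have hb : Continuous (bb R) := by unfold bb; fun_prop
  have ha0 : ∀ p ∈ MM, aa R p ≠ 0 := fun p hp => (aa_pos hR hp.1).ne'
  have hb0 : ∀ p ∈ MM, bb R p ≠ 0 := fun p hp => (bb_pos hR hp.1).ne'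
  have hs : ContinuousOn (sig R) MM :=
    (hb.continuousOn.log hb0).sub (ha.continuousOn.log ha0)
  have he : ContinuousOn (fun p => ee (-sig R p)) MM := continuous_ee.comp_continuousOn hs.neg
  have c1 : ContinuousOn (fun p : ℂ × ℂ => (R * aa R p - ‖p.2‖) / aa R p) MM :=
    ContinuousOn.div (by fun_prop) ha.continuousOn ha0
  have c2 : ContinuousOn (fun p : ℂ × ℂ => (R * bb R p - ‖p.1‖) / bb R p) MM :=
    ContinuousOn.div (by fun_prop) hb.continuousOn hb0
  exact (c1.smul (continuousOn_fst.mul he)).prodMk (c2.smul (continuousOn_snd.mul he))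

/-- Formula near the circle where the first coordinate vanishes. -/
lemma FF_up {p : ℂ × ℂ} (hp : ‖p‖ = 1) (h : R * ‖p.1‖ ≤ ‖p.2‖) :
    ‖p.2‖ = 1 ∧ FF R p = (0, (R - ‖p.1‖) • (p.2 * ee (-Real.log R))) := by
  obtain ⟨h1, h2, h3⟩ := norm_cases hp
  have hR0 : 0 < R := by linarith
  have h4 : ‖p.2‖ = 1 := by
    rcases h3 with h3 | h3
    · rw [h3] at h; linarith
    · exact h3
  have ha : aa R p = 1 / R := by
    unfold aa; rw [h4]; exact max_eq_right (by rw [le_div_iff₀ hR0]; linarith)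
  have hb : bb R p = 1 := by
    unfold bb; rw [h4]; exact max_eq_left (by rw [div_le_iff₀ hR0]; linarith)
  have hs : sig R p = Real.log R := by
    unfold sig; rw [ha, hb]; simp
  refine ⟨h4, ?_⟩
  unfold FF
  rw [ha, hb, hs, h4, mul_one_div_cancel hR0.ne']
  simp

/-- Formula near the circle where the second coordinate vanishes. -/
lemma FF_down {p : ℂ × ℂ} (hp : ‖p‖ = 1) (h : R * ‖p.2‖ ≤ ‖p.1‖) :
    ‖p.1‖ = 1 ∧ FF R p = ((R - ‖p.2‖) • (p.1 * ee (Real.log R)), 0) := by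
  obtain ⟨h1, h2, h3⟩ := norm_cases hp
  have hR0 : 0 < R := by linarith
  have h4 : ‖p.1‖ = 1 := by
    rcases h3 with h3 | h3
    · exact h3
    · rw [h3] at h; linarith
  have hb : bb R p = 1 / R := by
    unfold bb; rw [h4]; exact max_eq_right (by rw [le_div_iff₀ hR0]; linarith)
  have ha : aa R p = 1 := by
    unfold aa; rw [h4]; exact max_eq_left (by rw [div_le_iff₀ hR0]; linarith)
  have hs : sig R p = -Real.log R := by
    unfold sig; rw [ha, hb]; simp
  refine ⟨h4, ?_⟩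
  unfold FF
  rw [ha, hb, hs, h4, mul_one_div_cancel hR0.ne']
  simp

/-- Formula in the middle region. -/
lemma FF_mid {p : ℂ × ℂ} (h1 : ‖p.2‖ < R * ‖p.1‖) (h2 : ‖p.1‖ < R * ‖p.2‖) :
    FF R p = (((R * ‖p.1‖ - ‖p.2‖) / ‖p.1‖) • (p.1 * ee (-ss p)),
      ((R * ‖p.2‖ - ‖p.1‖) / ‖p.2‖) • (p.2 * ee (-ss p))) := by
  have hR0 : 0 < R := by linarith
  have ha : aa R p = ‖p.1‖ := by
    unfold aa; exact max_eq_left (by rw [div_le_iff₀ hR0]; linarith)
  have hb : bb R p = ‖p.2‖ := by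
    unfold bb; exact max_eq_left (by rw [div_le_iff₀ hR0]; linarith)
  have hs : sig R p = ss p := by
    unfold sig ss; rw [ha, hb]
  unfold FF
  rw [ha, hb, hs]

lemma mid_pos {p : ℂ × ℂ} (h1 : ‖p.2‖ < R * ‖p.1‖) (h2 : ‖p.1‖ < R * ‖p.2‖) :
    0 < ‖p.1‖ ∧ 0 < ‖p.2‖ := by
  have hR0 : 0 < R := by linarith
  exact ⟨(mul_pos_iff_of_pos_left hR0).1 ((norm_nonneg _).trans_lt h1),
    (mul_pos_iff_of_pos_left hR0).1 ((norm_nonneg _).trans_lt h2)⟩

lemma FF_ne_zero {p : ℂ × ℂ} (hp : p ∈ MM) : FF R p ≠ 0 := by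
  obtain ⟨h1, h2, -⟩ := norm_cases hp.1
  intro h
  rcases le_or_gt (R * ‖p.1‖) ‖p.2‖ with a | a
  · obtain ⟨e1, e2⟩ := FF_up hR hp.1 a
    have := congrArg (fun q => ‖q.2‖) (e2.symm.trans h)
    simp only [norm_smul, norm_mul, norm_ee, e1, Prod.snd_zero, norm_zero, mul_one,
      norm_eq_zero] at this
    linarith
  rcases le_or_gt (R * ‖p.2‖) ‖p.1‖ with b | b
  · obtain ⟨e1, e2⟩ := FF_down hR hp.1 b
    have := congrArg (fun q => ‖q.1‖) (e2.symm.trans h)
    simp only [norm_smul, norm_mul, norm_ee, e1, Prod.fst_zero, norm_zero, mul_one,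
      norm_eq_zero] at this
    linarith
  · obtain ⟨p1, p2⟩ := mid_pos hR a b
    have := congrArg (fun q => ‖q.1‖) ((FF_mid hR a b).symm.trans h)
    simp only [norm_smul, norm_mul, norm_ee, Prod.fst_zero, norm_zero, mul_one] at this
    have h3 : 0 < (R * ‖p.1‖ - ‖p.2‖) / ‖p.1‖ := div_pos (by linarith) p1
    rw [Real.norm_of_nonneg h3.le] at this
    exact (mul_pos h3 p1).ne' this

lemma FF_mem_cone {p : ℂ × ℂ} (hp : p ∈ MM) : FF R p ∈ cone := by
  rcases le_or_gt (R * ‖p.1‖) ‖p.2‖ with a | a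
  · left; rw [(FF_up hR hp.1 a).2]; simp
  rcases le_or_gt (R * ‖p.2‖) ‖p.1‖ with b | b
  · right; rw [(FF_down hR hp.1 b).2]; simp
  · obtain ⟨p1, p2⟩ := mid_pos hR a b
    rw [FF_mid hR a b]
    rcases hp.2 with h | h
    · left
      simp only [Complex.smul_re, smul_eq_mul]
      exact mul_nonpos_of_nonneg_of_nonpos (div_pos (by linarith) p1).le h
    · right
      simp only [Complex.smul_re, smul_eq_mul]
      exact mul_nonpos_of_nonneg_of_nonpos (div_pos (by linarith) p2).le h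

lemma up_of_fst_eq_zero {p : ℂ × ℂ} (hp : p ∈ MM) (h : (FF R p).1 = 0) : R * ‖p.1‖ ≤ ‖p.2‖ := by
  obtain ⟨h1, h2, -⟩ := norm_cases hp.1
  by_contra a
  push Not at a
  rcases le_or_gt (R * ‖p.2‖) ‖p.1‖ with b | b
  · obtain ⟨e1, e2⟩ := FF_down hR hp.1 b
    exact FF_ne_zero hR hp (Prod.ext h (by rw [e2]; rfl))
  · obtain ⟨p1, p2⟩ := mid_pos hR a b
    rw [FF_mid hR a b] at h
    have := congrArg norm h
    simp only [norm_smul, norm_mul, norm_ee, norm_zero, mul_one] at this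
    have h3 : 0 < (R * ‖p.1‖ - ‖p.2‖) / ‖p.1‖ := div_pos (by linarith) p1
    rw [Real.norm_of_nonneg h3.le] at this
    exact (mul_pos h3 p1).ne' this

lemma down_of_snd_eq_zero {p : ℂ × ℂ} (hp : p ∈ MM) (h : (FF R p).2 = 0) :
    R * ‖p.2‖ ≤ ‖p.1‖ := by
  obtain ⟨h1, h2, -⟩ := norm_cases hp.1
  by_contra b
  push Not at b
  rcases le_or_gt (R * ‖p.1‖) ‖p.2‖ with a | a
  · obtain ⟨e1, e2⟩ := FF_up hR hp.1 a
    exact FF_ne_zero hR hp (Prod.ext (by rw [e2]; rfl) h)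
  · obtain ⟨p1, p2⟩ := mid_pos hR a b
    rw [FF_mid hR a b] at h
    have := congrArg norm h
    simp only [norm_smul, norm_mul, norm_ee, norm_zero, mul_one] at this
    have h3 : 0 < (R * ‖p.2‖ - ‖p.1‖) / ‖p.2‖ := div_pos (by linarith) p2
    rw [Real.norm_of_nonneg h3.le] at this
    exact (mul_pos h3 p2).ne' this

end

end Pool.Agent.P.MP_4194ae_gt
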