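import Mathlib
import Pool.Agent.P.MP_4194ae_gt.Tube

/-!
The fibres of the untwisting maps are connected and small.
-/

namespace Pool.Agent.P.MP_4194ae_gt

/-- The fibre over the ray through `q`. -/
def fib (R : ℝ) (q : ℂ × ℂ) : Set (ℂ × ℂ) := {p | p ∈ MM ∧ ∃ t : ℝ, 0 < t ∧ FF R p = t • q}

/-- Solving `c • (w * ee (-θ)) = t • v` for a unit vector `w`. -/
lemma unit_solve {c t θ : ℝ} {w v : ℂ} (hc : 0 < c) (ht : 0 < t) (hw : ‖w‖ = 1) (hv : v ≠ 0)
    (h : c • (w * ee (-θ)) = t • v) : w = ‖v‖⁻¹ • (v * ee θ) := by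
  have h1 := congrArg norm h
  simp only [norm_smul, norm_mul, norm_ee, hw, mul_one, Real.norm_of_nonneg hc.le,
    Real.norm_of_nonneg ht.le] at h1
  have hv' : (‖v‖ : ℂ) ≠ 0 := by simpa using hv
  have ht' : (t : ℂ) ≠ 0 := by simpa using ht.ne'
  have h2 := ee_neg_mul θ
  rw [h1] at h
  simp only [Complex.real_smul, Complex.ofReal_mul, Complex.ofReal_inv] at h ⊢
  field_simp
  have h3 : (‖v‖ : ℂ) * (w * ee (-θ)) = v := mul_left_cancel₀ ht' (by rw [← h]; ring)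
  linear_combination ee θ * h3 - ‖v‖ * w * h2

lemma unit_back (c θ : ℝ) (v : ℂ) :
    c • ((‖v‖⁻¹ • (v * ee θ)) * ee (-θ)) = (c / ‖v‖) • v := by
  have h2 := ee_neg_mul θ
  simp only [Complex.real_smul, Complex.ofReal_div, Complex.ofReal_inv]
  linear_combination (c * (‖v‖ : ℂ)⁻¹ * v) * h2

lemma norm_unit {θ : ℝ} {v : ℂ} (hv : v ≠ 0) : ‖‖v‖⁻¹ • (v * ee θ)‖ = 1 := by
  have hv' : ‖v‖ ≠ 0 := by simpa using hv
  rw [norm_smul, norm_mul, norm_ee, norm_inv, norm_norm, mul_one, inv_mul_cancel₀ hv']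

section
variable {R : ℝ} (hR : 1 < R)
include hR

lemma fib_up {q : ℂ × ℂ} (h1 : q.1 = 0) (h2 : q.2 ≠ 0) :
    fib R q = (fun z : ℂ => (z, ‖q.2‖⁻¹ • (q.2 * ee (Real.log R)))) ''
      {z : ℂ | ‖z‖ ≤ 1 / R ∧ ((z * ee (1 * Real.log ‖z‖)).re ≤ 0 ∨
        (fun ρ => ((‖q.2‖⁻¹ • (q.2 * ee (Real.log R))) * ee (Real.log ρ)).re ≤ 0) ‖z‖)} := by
  have hR0 : 0 < R := by linarith
  have hq : 0 < ‖q.2‖ := norm_pos_iff.2 h2
  have hw := norm_unit (θ := Real.log R) h2
  set w := ‖q.2‖⁻¹ • (q.2 * ee (Real.log R)) with hwdef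
  have hinv : 1 / R < 1 := by rw [div_lt_one hR0]; exact hR
  ext p
  constructor
  · rintro ⟨hp, t, ht, hF⟩
    have a := up_of_fst_eq_zero hR hp (by rw [hF]; simp [h1])
    obtain ⟨e1, e2⟩ := FF_up hR hp.1 a
    have e3 : (R - ‖p.1‖) • (p.2 * ee (-Real.log R)) = t • q.2 := congrArg Prod.snd (e2.symm.trans hF)
    have e4 : p.2 = w := unit_solve (by linarith [(norm_cases hp.1).1]) ht e1 h2 e3
    have e5 : -ss p = Real.log ‖p.1‖ := by unfold ss; rw [e1]; simp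
    refine ⟨p.1, ⟨by rw [le_div_iff₀ hR0]; linarith, ?_⟩, Prod.ext rfl e4.symm⟩
    have := hp.2
    rw [e5, e4] at this
    simpa only [one_mul] using this
  · rintro ⟨z, ⟨hz1, hz2⟩, rfl⟩
    have hn : ‖(z, w)‖ = 1 := by
      rw [Prod.norm_def, hw]; exact max_eq_right (by linarith)
    have e5 : -ss (z, w) = Real.log ‖z‖ := by unfold ss; simp only [hw]; simp
    have a : R * ‖(z, w).1‖ ≤ ‖(z, w).2‖ := by
      rw [le_div_iff₀ hR0] at hz1
      simp only [hw]; linarith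
    refine ⟨⟨hn, ?_⟩, (R - ‖z‖) / ‖q.2‖, div_pos (by linarith) hq, ?_⟩
    · rw [e5]; simpa only [one_mul] using hz2
    · rw [(FF_up hR hn a).2]
      exact Prod.ext (by simp [h1]) (unit_back _ _ _)

lemma fib_down {q : ℂ × ℂ} (h1 : q.1 ≠ 0) (h2 : q.2 = 0) :
    fib R q = (fun z : ℂ => (‖q.1‖⁻¹ • (q.1 * ee (-Real.log R)), z)) ''
      {z : ℂ | ‖z‖ ≤ 1 / R ∧ ((z * ee (-1 * Real.log ‖z‖)).re ≤ 0 ∨
        (fun ρ => ((‖q.1‖⁻¹ • (q.1 * ee (-Real.log R))) * ee (-Real.log ρ)).re ≤ 0) ‖z‖)} := by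
  have hR0 : 0 < R := by linarith
  have hq : 0 < ‖q.1‖ := norm_pos_iff.2 h1
  have hw := norm_unit (θ := -Real.log R) h1
  set w := ‖q.1‖⁻¹ • (q.1 * ee (-Real.log R)) with hwdef
  have hinv : 1 / R < 1 := by rw [div_lt_one hR0]; exact hR
  ext p
  constructor
  · rintro ⟨hp, t, ht, hF⟩
    have a := down_of_snd_eq_zero hR hp (by rw [hF]; simp [h2])
    obtain ⟨e1, e2⟩ := FF_down hR hp.1 a
    have e3 : (R - ‖p.2‖) • (p.1 * ee (- -Real.log R)) = t • q.1 := by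
      rw [neg_neg]; exact congrArg Prod.fst (e2.symm.trans hF)
    have e4 : p.1 = w := unit_solve (by linarith [(norm_cases hp.1).2.1]) ht e1 h1 e3
    have e5 : -ss p = -Real.log ‖p.2‖ := by unfold ss; rw [e1]; simp
    refine ⟨p.2, ⟨by rw [le_div_iff₀ hR0]; linarith, ?_⟩, Prod.ext e4.symm rfl⟩
    have := hp.2
    rw [e5, e4] at this
    simpa only [neg_one_mul] using this.symm
  · rintro ⟨z, ⟨hz1, hz2⟩, rfl⟩
    have hn : ‖(w, z)‖ = 1 := by
      rw [Prod.norm_def, hw]; exact max_eq_left (by linarith)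
    have e5 : -ss (w, z) = -Real.log ‖z‖ := by unfold ss; simp only [hw]; simp
    have a : R * ‖(w, z).2‖ ≤ ‖(w, z).1‖ := by
      rw [le_div_iff₀ hR0] at hz1
      simp only [hw]; linarith
    refine ⟨⟨hn, ?_⟩, (R - ‖z‖) / ‖q.1‖, div_pos (by linarith) hq, ?_⟩
    · rw [e5]; simpa only [neg_one_mul] using hz2.symm
    · rw [(FF_down hR hn a).2]
      refine Prod.ext ?_ (by simp [h2])
      have := unit_back (R - ‖z‖) (-Real.log R) q.1
      rw [neg_neg] at this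
      exact this

lemma fib_mid_norms {q : ℂ × ℂ} (h1 : q.1 ≠ 0) (h2 : q.2 ≠ 0) {p : ℂ × ℂ} (hp : p ∈ MM) {t : ℝ}
    (ht : 0 < t) (hF : FF R p = t • q) :
    ‖p.2‖ < R * ‖p.1‖ ∧ ‖p.1‖ < R * ‖p.2‖ ∧ R * ‖p.1‖ - ‖p.2‖ = t * ‖q.1‖ ∧
      R * ‖p.2‖ - ‖p.1‖ = t * ‖q.2‖ := by
  have a : ‖p.2‖ < R * ‖p.1‖ := by
    by_contra a
    push Not at a
    have := congrArg Prod.fst ((FF_up hR hp.1 a).2.symm.trans hF)
    exact smul_ne_zero ht.ne' h1 this.symm
  have b : ‖p.1‖ < R * ‖p.2‖ := by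
    by_contra b
    push Not at b
    have := congrArg Prod.snd ((FF_down hR hp.1 b).2.symm.trans hF)
    exact smul_ne_zero ht.ne' h2 this.symm
  obtain ⟨p1, p2⟩ := mid_pos hR a b
  have e := (FF_mid hR a b).symm.trans hF
  have e1 := congrArg (fun q => ‖q.1‖) e
  have e2 := congrArg (fun q => ‖q.2‖) e
  have h3 : 0 < (R * ‖p.1‖ - ‖p.2‖) / ‖p.1‖ := div_pos (by linarith) p1
  have h4 : 0 < (R * ‖p.2‖ - ‖p.1‖) / ‖p.2‖ := div_pos (by linarith) p2
  simp only [Prod.smul_fst, Prod.smul_snd, norm_smul, norm_mul, norm_ee, mul_one,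
    Real.norm_of_nonneg h3.le, Real.norm_of_nonneg h4.le, Real.norm_of_nonneg ht.le] at e1 e2
  rw [div_mul_cancel₀ _ p1.ne'] at e1
  rw [div_mul_cancel₀ _ p2.ne'] at e2
  exact ⟨a, b, e1, e2⟩

lemma fib_mid_subsingleton {q : ℂ × ℂ} (h1 : q.1 ≠ 0) (h2 : q.2 ≠ 0) :
    (fib R q).Subsingleton := by
  rintro p ⟨hp, t, ht, hF⟩ p' ⟨hp', t', ht', hF'⟩
  obtain ⟨a, b, e1, e2⟩ := fib_mid_norms hR h1 h2 hp ht hF
  obtain ⟨a', b', e1', e2'⟩ := fib_mid_norms hR h1 h2 hp' ht' hF'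
  obtain ⟨p1, p2⟩ := mid_pos hR a b
  have hRR : 0 < R ^ 2 - 1 := by nlinarith
  have k1 : t' * ‖p.1‖ = t * ‖p'.1‖ := by
    refine mul_left_cancel₀ hRR.ne' ?_
    linear_combination t' * R * e1 + t' * e2 - t * R * e1' - t * e2'
  have k2 : t' * ‖p.2‖ = t * ‖p'.2‖ := by
    refine mul_left_cancel₀ hRR.ne' ?_
    linear_combination t' * R * e2 + t' * e1 - t * R * e2' - t * e1'
  have k3 : t' = t := by
    have n1 := hp.1
    have n2 := hp'.1
    rw [Prod.norm_def] at n1 n2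
    calc t' = t' * max ‖p.1‖ ‖p.2‖ := by rw [n1, mul_one]
      _ = t * max ‖p'.1‖ ‖p'.2‖ := by
        rw [mul_max_of_nonneg _ _ ht.le, mul_max_of_nonneg _ _ ht'.le, k1, k2]
      _ = t := by rw [n2, mul_one]
  subst k3
  have n1 : ‖p.1‖ = ‖p'.1‖ := mul_left_cancel₀ ht.ne' k1
  have n2 : ‖p.2‖ = ‖p'.2‖ := mul_left_cancel₀ ht.ne' k2
  have hs : ss p = ss p' := by unfold ss; rw [n1, n2]
  have e := hF.trans hF'.symm
  rw [FF_mid hR a b, FF_mid hR a' b', ← n1, ← n2, ← hs] at e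
  have h3 : 0 < (R * ‖p.1‖ - ‖p.2‖) / ‖p.1‖ := div_pos (by linarith) p1
  have h4 : 0 < (R * ‖p.2‖ - ‖p.1‖) / ‖p.2‖ := div_pos (by linarith) p2
  have f1 := smul_right_injective ℂ h3.ne' (congrArg Prod.fst e)
  have f2 := smul_right_injective ℂ h4.ne' (congrArg Prod.snd e)
  exact Prod.ext (mul_right_cancel₀ (ee_ne_zero _) f1) (mul_right_cancel₀ (ee_ne_zero _) f2)

lemma fib_mid_nonempty {q : ℂ × ℂ} (hq : q ∈ cone) (h1 : q.1 ≠ 0) (h2 : q.2 ≠ 0) :
    (fib R q).Nonempty := by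
  have hR0 : 0 < R := by linarith
  have ha : 0 < ‖q.1‖ := norm_pos_iff.2 h1
  have hb : 0 < ‖q.2‖ := norm_pos_iff.2 h2
  set a := ‖q.1‖ with hadef
  set b := ‖q.2‖ with hbdef
  set m := max (R * a + b) (R * b + a) with hm
  have hm0 : 0 < m := lt_max_of_lt_left (by positivity)
  set α := (R * a + b) / m with hα
  set β := (R * b + a) / m with hβ
  have hα0 : 0 < α := by positivity
  have hβ0 : 0 < β := by positivity
  have hRR : 0 < R ^ 2 - 1 := by nlinarith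
  set θ := Real.log β - Real.log α with hθ
  set p : ℂ × ℂ := (α • a⁻¹ • (q.1 * ee θ), β • b⁻¹ • (q.2 * ee θ)) with hp
  have n1 : ‖p.1‖ = α := by
    simp only [hp]
    rw [norm_smul, norm_unit h1, mul_one, Real.norm_of_nonneg hα0.le]
  have n2 : ‖p.2‖ = β := by
    simp only [hp]
    rw [norm_smul, norm_unit h2, mul_one, Real.norm_of_nonneg hβ0.le]
  have hn : ‖p‖ = 1 := by
    rw [Prod.norm_def, n1, n2, hα, hβ, max_div_div_right hm0.le, div_self hm0.ne']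
  have hs : ss p = θ := by unfold ss; rw [n1, n2]
  have e1 : p.1 * ee (-θ) = (α / a) • q.1 := by
    simp only [hp]
    rw [smul_mul_assoc]; exact unit_back _ _ _
  have e2 : p.2 * ee (-θ) = (β / b) • q.2 := by
    simp only [hp]
    rw [smul_mul_assoc]; exact unit_back _ _ _
  have k1 : R * α - β = (R ^ 2 - 1) / m * a := by rw [hα, hβ]; field_simp; ring
  have k2 : R * β - α = (R ^ 2 - 1) / m * b := by rw [hα, hβ]; field_simp; ring
  have k1' : 0 < (R ^ 2 - 1) / m * a := by positivity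
  have k2' : 0 < (R ^ 2 - 1) / m * b := by positivity
  refine ⟨p, ⟨hn, ?_⟩, (R ^ 2 - 1) / m, by positivity, ?_⟩
  · rw [hs, e1, e2]
    rcases hq with h | h
    · left
      simp only [Complex.smul_re, smul_eq_mul]
      exact mul_nonpos_of_nonneg_of_nonpos (by positivity) h
    · right
      simp only [Complex.smul_re, smul_eq_mul]
      exact mul_nonpos_of_nonneg_of_nonpos (by positivity) h
  · rw [FF_mid hR (by rw [n1, n2]; linarith) (by rw [n1, n2]; linarith), hs, e1, e2, n1, n2,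
      k1, k2, smul_smul, smul_smul]
    refine Prod.ext ?_ ?_
    · simp only [Prod.smul_fst]; congr 1; field_simp
    · simp only [Prod.smul_snd]; congr 1; field_simp

lemma isConnected_fib {q : ℂ × ℂ} (hq : q ∈ cone) (h0 : q ≠ 0) : IsConnected (fib R q) := by
  have hR0 : 0 < R := by linarith
  by_cases h1 : q.1 = 0
  · have h2 : q.2 ≠ 0 := fun h2 => h0 (Prod.ext h1 h2)
    rw [fib_up hR h1 h2]
    refine IsConnected.image ?_ _ (by fun_prop)
    exact isConnected_twisted 1 (1 / R) (by positivity)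
      (fun ρ => ((‖q.2‖⁻¹ • (q.2 * ee (Real.log R))) * ee (Real.log ρ)).re ≤ 0)
  by_cases h2 : q.2 = 0
  · rw [fib_down hR h1 h2]
    refine IsConnected.image ?_ _ (by fun_prop)
    exact isConnected_twisted (-1) (1 / R) (by positivity)
      (fun ρ => ((‖q.1‖⁻¹ • (q.1 * ee (-Real.log R))) * ee (-Real.log ρ)).re ≤ 0)
  · exact ⟨fib_mid_nonempty hR hq h1 h2, (fib_mid_subsingleton hR h1 h2).isPreconnected⟩

lemma dist_le_of_mem_fib {q : ℂ × ℂ} (h0 : q ≠ 0) {p p' : ℂ × ℂ} (hp : p ∈ fib R q)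
    (hp' : p' ∈ fib R q) : dist p p' ≤ 2 / R := by
  have hR0 : 0 < R := by linarith
  have key : ∀ z z' : ℂ, ‖z‖ ≤ 1 / R → ‖z'‖ ≤ 1 / R → dist z z' ≤ 2 / R := by
    intro z z' hz hz'
    calc dist z z' ≤ ‖z‖ + ‖z'‖ := dist_le_norm_add_norm _ _
      _ ≤ 1 / R + 1 / R := add_le_add hz hz'
      _ = 2 / R := by ring
  by_cases h1 : q.1 = 0
  · have h2 : q.2 ≠ 0 := fun h2 => h0 (Prod.ext h1 h2)
    rw [fib_up hR h1 h2] at hp hp'
    obtain ⟨z, hz, rfl⟩ := hp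
    obtain ⟨z', hz', rfl⟩ := hp'
    rw [dist_prod_same_right]
    exact key z z' hz.1 hz'.1
  by_cases h2 : q.2 = 0
  · rw [fib_down hR h1 h2] at hp hp'
    obtain ⟨z, hz, rfl⟩ := hp
    obtain ⟨z', hz', rfl⟩ := hp'
    rw [dist_prod_same_left]
    exact key z z' hz.1 hz'.1
  · rw [fib_mid_subsingleton hR h1 h2 hp hp', dist_self]
    positivity

end

/-- The map of the continuum onto the closed unit ball. -/
noncomputable def ff (R : ℝ) (p : MM) : Metric.closedBall (0 : EuclideanSpace ℝ (Fin 3)) 1 :=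
  ⟨proj (FF R p), by simpa using norm_proj_le _⟩

section
variable {R : ℝ} (hR : 1 < R)
include hR

lemma continuous_ff : Continuous (ff R) := by
  have h1 : Continuous fun p : MM => FF R p :=
    (continuousOn_FF hR).comp_continuous continuous_subtype_val fun p => p.2
  refine Continuous.subtype_mk ?_ _
  unfold proj
  refine Continuous.smul (Continuous.inv₀ (continuous_nn.comp h1) fun p => ?_)
    (continuous_flat.comp h1)
  exact (nn_pos (FF_ne_zero hR p.2)).ne'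

lemma exists_fib (y : Metric.closedBall (0 : EuclideanSpace ℝ (Fin 3)) 1) :
    ∃ q ∈ cone, q ≠ 0 ∧ ff R ⁻¹' {y} = Subtype.val ⁻¹' fib R q := by
  obtain ⟨q, hq, hn, hy⟩ := flat_surj (u := y.1) (mem_closedBall_zero_iff.1 y.2)
  refine ⟨q, hq, ?_, ?_⟩
  · rintro rfl
    simp [nn] at hn
  · ext p
    simp only [Set.mem_preimage, Set.mem_singleton_iff, fib, Set.mem_ofPred_eq, p.2, true_and]
    rw [← proj_eq_iff hq (FF_mem_cone hR p.2) hn (FF_ne_zero hR p.2), hy, Subtype.ext_iff]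
    rfl

lemma isConnected_fibre (y : Metric.closedBall (0 : EuclideanSpace ℝ (Fin 3)) 1) :
    IsConnected (ff R ⁻¹' {y}) := by
  obtain ⟨q, hq, h0, e⟩ := exists_fib hR y
  have h := isConnected_fib hR hq h0
  rw [e]
  refine ⟨?_, ?_⟩
  · obtain ⟨p, hp⟩ := h.nonempty
    exact ⟨⟨p, hp.1⟩, hp⟩
  · rw [← Topology.IsInducing.subtypeVal.isPreconnected_image, Subtype.image_preimage_coe,
      Set.inter_eq_right.2 fun p hp => hp.1]
    exact h.isPreconnected

lemma diam_fibre (y : Metric.closedBall (0 : EuclideanSpace ℝ (Fin 3)) 1) :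
    Metric.diam (ff R ⁻¹' {y}) ≤ 2 / R := by
  obtain ⟨q, hq, h0, e⟩ := exists_fib hR y
  rw [e]
  have hR0 : 0 < R := by linarith
  exact Metric.diam_le_of_forall_dist_le (by positivity) fun p hp p' hp' =>
    dist_le_of_mem_fib hR h0 hp hp'

lemma surjective_ff : Function.Surjective (ff R) := fun y => (isConnected_fibre hR y).nonempty

end

instance compactSpace_MM : CompactSpace MM := isCompact_iff_compactSpace.1 isCompact_MM

lemma isConnected_preimage_ff {R : ℝ} (hR : 1 < R)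
    {K : Set (Metric.closedBall (0 : EuclideanSpace ℝ (Fin 3)) 1)} (h1 : IsClosed K)
    (h2 : IsConnected K) : IsConnected (ff R ⁻¹' K) :=
  ((continuous_ff hR).isClosedMap.isQuotientMap (continuous_ff hR)
    (surjective_ff hR)).isCoinducing.isConnected_preimage_of_isClosed (isConnected_fibre hR) h1 h2

instance connectedSpace_MM : ConnectedSpace MM := by
  have : ConnectedSpace (Metric.closedBall (0 : EuclideanSpace ℝ (Fin 3)) 1) :=
    isConnected_iff_connectedSpace.1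
      ((convex_closedBall _ _).isConnected ⟨0, by simp⟩)
  rw [connectedSpace_iff_univ]
  exact isConnected_preimage_ff (R := 2) (by norm_num) isClosed_univ isConnected_univ

end Pool.Agent.P.MP_4194ae_gt
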